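import Pool.Agent.N977.P.Stm4

/-!
# NSP/HI (helper335): the operator acts only on high frequencies
-/

open MeasureTheory Set Filter Topology
open scoped ContDiff ComplexConjugate

namespace Pool.Agent.N335.NSP

open H459R3.NS Pool.Agent.N977.Q Pool.Agent.N977.S Pool.Agent.N977.P
open Pool.Agent.N977.K (SolK cmp)

lemma len_sq (k : K3) : len k ^ 2 = ∑ j, (k j : ℝ) ^ 2 := by
  unfold len
  exact Real.sq_sqrt (Finset.sum_nonneg fun j _ => sq_nonneg _)

lemma len_qq (e : Fin 2) (n : ℕ) : 4 * (Mn 8 n : ℝ) ^ 2 ≤ len (qq e n) ^ 2 := by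
  rw [len_sq]
  fin_cases e
  · simp [qq, dv, ev, Fin.sum_univ_three]
    nlinarith [sq_nonneg (Mn 8 n : ℝ)]
  · simp [qq, dv, ev, Fin.sum_univ_three]
    nlinarith [sq_nonneg (Mn 8 n : ℝ)]

lemma Mn_mono {m n : ℕ} (h : m ≤ n) : (Mn 8 m : ℝ) ≤ Mn 8 n := by
  unfold Mn
  have h1 : 2 ^ m ≤ 2 ^ n := Nat.pow_le_pow_right (by norm_num) h
  exact_mod_cast Nat.mul_le_mul_left 8 h1

lemma le_len {J : ℕ → ℕ} {G : Fin 2 → ℕ → K3 → ℝ} (hP : Pk J G) {e : Fin 2} {n₀ m : ℕ}
    (hm : n₀ ≤ m) {k : K3} (hk : G e m k ≠ 0) : (Mn 8 n₀ : ℝ) ≤ len k := by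
  have h1 := hP.near e m k hk
  have h2 := hP.J2 m
  have h3 := len_qq e m
  have h4 : (0 : ℝ) ≤ Mn 8 m := Nat.cast_nonneg _
  have h5 : (Mn 8 m : ℝ) * (1000 * ((J m : ℝ) - 1)) ≤ Mn 8 m * Mn 8 m :=
    mul_le_mul_of_nonneg_left h2 h4
  have h6 := (abs_le.1 h1).1
  have h7 : (Mn 8 m : ℝ) ^ 2 ≤ len k ^ 2 := by nlinarith
  have h8 : 0 ≤ len k := Real.sqrt_nonneg _
  exact (Mn_mono hm).trans ((pow_le_pow_iff_left₀ h4 h8 two_ne_zero).1 h7)

section

variable {J : ℕ → ℕ} {G : Fin 2 → ℕ → K3 → ℝ} {α μ : ℕ → ℝ} {n₀ : ℕ}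

lemma am_eq (hP : Pk J G) {u u' : V → V}
    (h : ∀ (k : K3) (i : Fin 3), (Mn 8 n₀ : ℝ) ≤ len k →
      fr (fun x => u x i) k = fr (fun x => u' x i) k) (e : Fin 2) {m : ℕ} (hm : n₀ ≤ m) :
    am (G e m) u = am (G e m) u' := by
  unfold am
  refine tsum_congr fun k => ?_
  by_cases hk : G e m k = 0
  · rw [hk, zero_mul, zero_mul]
  · rw [h k 2 (le_len hP hm hk)]

lemma sh_zero {f : ℕ → ℝ} (h : ∀ n, n < n₀ → f n = 0) {n : ℕ} (hn : n < n₀) : sh f n = 0 := by
  cases n with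
  | zero => rfl
  | succ n => exact h n (by omega)

lemma cX_eq (hP : Pk J G) (h0 : ∀ n, n < n₀ → α n = 0 ∧ μ n = 0) {u u' v v' : V → V}
    (hu : ∀ (e : Fin 2) (m : ℕ), n₀ ≤ m → am (G e m) u = am (G e m) u')
    (hv : ∀ (e : Fin 2) (m : ℕ), n₀ ≤ m → am (G e m) v = am (G e m) v') (n : ℕ) :
    cXp G α u v n = cXp G α u' v' n := by
  have h1 : (fun n => α n * (am (G 1 n) u * am (G 1 n) v)) =
      fun n => α n * (am (G 1 n) u' * am (G 1 n) v') := by
    funext m
    rcases lt_or_ge m n₀ with hm | hm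
    · rw [(h0 m hm).1, zero_mul, zero_mul]
    · rw [hu 1 m hm, hv 1 m hm]
  unfold cXp
  rw [h1]
  have h2 : α n * (am (G 1 n) u * am (G 1 n) v) = α n * (am (G 1 n) u' * am (G 1 n) v') :=
    congrFun h1 n
  rw [h2]

lemma cY_eq (hP : Pk J G) (h0 : ∀ n, n < n₀ → α n = 0 ∧ μ n = 0) {u u' v v' : V → V}
    (hu : ∀ (e : Fin 2) (m : ℕ), n₀ ≤ m → am (G e m) u = am (G e m) u')
    (hv : ∀ (e : Fin 2) (m : ℕ), n₀ ≤ m → am (G e m) v = am (G e m) v') (n : ℕ) :
    cYp G α μ u v n = cYp G α μ u' v' n := by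
  have h1 : (fun n => μ n * (am (G 1 n) u * am (G 1 n) v)) =
      fun n => μ n * (am (G 1 n) u' * am (G 1 n) v') := by
    funext m
    rcases lt_or_ge m n₀ with hm | hm
    · rw [(h0 m hm).2, zero_mul, zero_mul]
    · rw [hu 1 m hm, hv 1 m hm]
  unfold cYp
  rw [h1]
  rcases lt_or_ge n n₀ with hn | hn
  · rw [(h0 n hn).1, (h0 n hn).2]
    ring
  · rw [hu 1 n hn, hv 0 n hn, hv 0 (n + 1) (by omega), hv 1 (n + 1) (by omega)]

end

theorem hi : Pool.Agent.N977.P.S_HI := by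
  intro hO J G α μ hP hG n₀ h0
  have hop := (hO J G α μ hP hG).2.2
  refine ⟨?_, ?_⟩
  · intro u u' v v' _ _ _ _ hu hv
    have hu' : ∀ (e : Fin 2) (m : ℕ), n₀ ≤ m → am (G e m) u = am (G e m) u' :=
      fun e m hm => am_eq hP hu e hm
    have hv' : ∀ (e : Fin 2) (m : ℕ), n₀ ≤ m → am (G e m) v = am (G e m) v' :=
      fun e m hm => am_eq hP hv e hm
    have h1 : kp G α μ u v = kp G α μ u' v' := by
      funext x
      unfold kp
      refine tsum_congr fun n => ?_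
      rw [cX_eq hP h0 hu' hv', cY_eq hP h0 hu' hv']
    funext x i
    unfold KP
    rw [h1]
  · intro u v hu hv k i hk
    by_cases hi : i = 2
    · subst hi
      have h1 : (fun x => KP G α μ u v x 2) = kp G α μ u v := by
        funext x
        simp [KP]
      rw [h1, hop u v hu hv k]
      have h2 : ∀ n, cXp G α u v n * G 0 n k + cYp G α μ u v n * G 1 n k = 0 := by
        intro n
        rcases lt_or_ge n n₀ with hn | hn
        · have hX : cXp G α u v n = 0 := by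
            unfold cXp
            rw [sh_zero (n₀ := n₀) (fun m hm => by rw [(h0 m hm).1, zero_mul]) hn, (h0 n hn).1]
            ring
          have hY : cYp G α μ u v n = 0 := by
            unfold cYp
            rw [sh_zero (n₀ := n₀) (fun m hm => by rw [(h0 m hm).2, zero_mul]) hn, (h0 n hn).1,
              (h0 n hn).2]
            ring
          rw [hX, hY]
          ring
        · have hz : ∀ e, G e n k = 0 := by
            intro e
            by_contra hne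
            exact absurd (le_len hP hn hne) (not_le.2 hk)
          rw [hz 0, hz 1]
          ring
      simp [h2]
    · have h1 : (fun x => KP G α μ u v x i) = fun _ => 0 := by
        funext x
        simp [KP, hi]
      rw [h1]
      simp [fr, fc]

end Pool.Agent.N335.NSP
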